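import Pool.Agent.Helper8.Kak.Amb
import Pool.Agent.Helper8.Kak.Forms

/-!
# Conditional entropies from pairwise estimates
-/

set_option autoImplicit false

namespace Pool.Agent.Helper6.Kak

open Pool.Agent.Helper8.Kak

variable {Ω : Type} [Fintype Ω] {p : Ω → ℝ}

/-- an integer vector whose values are within `ρ` of each other on the classes of `r` -/
theorem CE_vec {m : ℕ} (hp : IsProb p) (r : Setoid Ω) (X : Ω → Fin m → ℤ) (ρ : Ω → ℝ)
    (hρ : ∀ ω, 0 ≤ ρ ω) (hm : ∀ ω ω', 0 < p ω → 0 < p ω' → r ω ω' → ρ ω = ρ ω')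
    (hX : ∀ ω ω', 0 < p ω → 0 < p ω' → r ω ω' → ∀ i, |(X ω i : ℝ) - X ω' i| ≤ ρ ω) :
    CE p (Setoid.ker X) r ≤ m * Ex p (fun ω => Real.log (2 * ρ ω + 1)) := by
  classical
  -- a representative in the support
  have hrep : ∀ ω : Ω, ∃ ω', (0 < p ω → 0 < p ω' ∧ r ω ω') ∧
      ω' = (if h : ∃ x, 0 < p x ∧ Quotient.mk r x = Quotient.mk r ω then h.choose else ω) := by
    intro ω
    refine ⟨_, fun h0 => ?_, rfl⟩
    have h : ∃ x, 0 < p x ∧ Quotient.mk r x = Quotient.mk r ω := ⟨ω, h0, rfl⟩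
    rw [dif_pos h]
    exact ⟨h.choose_spec.1, r.symm (Quotient.exact h.choose_spec.2)⟩
  choose f hf1 hf2 using hrep
  have hfm : ∀ ω ω', 0 < p ω → 0 < p ω' → r ω ω' → f ω = f ω' := by
    intro ω ω' h0 h0' h
    have e : Quotient.mk r ω = Quotient.mk r ω' := Quotient.sound h
    rw [hf2 ω, hf2 ω']
    have hx : ∃ x, 0 < p x ∧ Quotient.mk r x = Quotient.mk r ω := ⟨ω, h0, rfl⟩
    have hx' : ∃ x, 0 < p x ∧ Quotient.mk r x = Quotient.mk r ω' := ⟨ω', h0', rfl⟩
    rw [dif_pos hx, dif_pos hx']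
    congr 1
    funext x
    rw [e]
  have h := amb_box hp r X (fun ω i => (X (f ω) i : ℝ)) ρ hρ
    (fun ω ω' h0 h0' h => ⟨by rw [hfm ω ω' h0 h0' h], hm ω ω' h0 h0' h⟩)
    (fun ω h0 i => hX ω (f ω) h0 (hf1 ω h0).1 (hf1 ω h0).2 i)
  exact h

/-- an integer whose values are within `ρ` of each other on the classes of `r` -/
theorem CE_int (hp : IsProb p) (r : Setoid Ω) (X : Ω → ℤ) (ρ : Ω → ℝ)
    (hρ : ∀ ω, 0 ≤ ρ ω) (hm : ∀ ω ω', 0 < p ω → 0 < p ω' → r ω ω' → ρ ω = ρ ω')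
    (hX : ∀ ω ω', 0 < p ω → 0 < p ω' → r ω ω' → |(X ω : ℝ) - X ω'| ≤ ρ ω) :
    CE p (Setoid.ker X) r ≤ Ex p (fun ω => Real.log (2 * ρ ω + 1)) := by
  have h := CE_vec hp r (fun ω (_ : Fin 1) => X ω) ρ hρ hm
    (fun ω ω' h0 h0' h _ => hX ω ω' h0 h0' h)
  have e : Setoid.ker (fun ω (_ : Fin 1) => X ω) = Setoid.ker X := by
    ext a b
    simp only [Setoid.ker_def]
    exact ⟨fun h => congrFun h 0, fun h => by rw [h]⟩
  rw [e] at h
  simpa using h

/-- a height whose values are within `ρ` of each other on the classes of `r` -/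
theorem CE_hgt {M : ℕ} (hp : IsProb p) (r : Setoid Ω) (X : Ω → Fin M) (ρ : Ω → ℝ)
    (hρ : ∀ ω, 0 ≤ ρ ω) (hm : ∀ ω ω', 0 < p ω → 0 < p ω' → r ω ω' → ρ ω = ρ ω')
    (hX : ∀ ω ω', 0 < p ω → 0 < p ω' → r ω ω' → |((X ω : ℕ) : ℝ) - ((X ω' : ℕ) : ℝ)| ≤ ρ ω) :
    CE p (Setoid.ker X) r ≤ Ex p (fun ω => Real.log (2 * ρ ω + 1)) := by
  have h := CE_int hp r (fun ω => ((X ω : ℕ) : ℤ)) ρ hρ hm
    (fun ω ω' h0 h0' h => by simpa using hX ω ω' h0 h0' h)
  have e : Setoid.ker (fun ω => ((X ω : ℕ) : ℤ)) = Setoid.ker X := by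
    ext a b
    simp only [Setoid.ker_def]
    constructor
    · intro h
      exact Fin.ext (by exact_mod_cast h)
    · intro h
      rw [h]
  rw [e] at h
  exact h

/-- cells of real vectors within `ρ δ` of each other on the classes of `r` -/
theorem CE_cell {m : ℕ} {δ : ℝ} (hδ : 0 < δ) (hp : IsProb p) (r : Setoid Ω) (u : Ω → Fin m → ℝ)
    (ρ : Ω → ℝ) (hρ : ∀ ω, 0 ≤ ρ ω) (hm : ∀ ω ω', 0 < p ω → 0 < p ω' → r ω ω' → ρ ω = ρ ω')
    (hX : ∀ ω ω', 0 < p ω → 0 < p ω' → r ω ω' → ∀ i, |u ω i - u ω' i| ≤ ρ ω * δ) :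
    CE p (Setoid.ker (fun ω => cell δ (u ω))) r ≤ m * Ex p (fun ω => Real.log (2 * ρ ω + 3)) := by
  have h := CE_vec hp r (fun ω => cell δ (u ω)) (fun ω => ρ ω + 1)
    (fun ω => by linarith [hρ ω]) (fun ω ω' h0 h0' h => by rw [hm ω ω' h0 h0' h]) ?_
  · refine h.trans (le_of_eq ?_)
    congr 1
    unfold Ex
    refine Finset.sum_congr rfl fun ω _ => ?_
    ring_nf
  · intro ω ω' h0 h0' h i
    have h1 := hX ω ω' h0 h0' h i
    have e1 : ∀ ω, ((cell δ (u ω) i : ℤ) : ℝ) = (⌊u ω i / δ⌋ : ℝ) := fun _ => rfl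
    rw [e1, e1]
    have h3 : |u ω i / δ - u ω' i / δ| ≤ ρ ω := by
      rw [← sub_div, abs_div, abs_of_pos hδ, div_le_iff₀ hδ]
      exact h1
    have a1 := Int.floor_le (u ω i / δ)
    have a2 := Int.lt_floor_add_one (u ω i / δ)
    have a3 := Int.floor_le (u ω' i / δ)
    have a4 := Int.lt_floor_add_one (u ω' i / δ)
    rw [abs_le] at h3 ⊢
    constructor <;> linarith [h3.1, h3.2]

/-- heavy tailed weights on integer vectors -/
theorem sum_tail {m : ℕ} (c : Fin m → ℤ) (F : Finset (Fin m → ℤ)) :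
    ∑ a ∈ F, ∏ i, (3 * (1 + |((a i - c i : ℤ) : ℝ)|) ^ 2)⁻¹ ≤ 1 := by
  classical
  have h1 : F ⊆ Fintype.piFinset (fun i => F.image (fun a => a i)) := by
    intro a ha
    rw [Fintype.mem_piFinset]
    intro i
    exact Finset.mem_image_of_mem _ ha
  have hpos : ∀ n : ℤ, 0 ≤ (3 * (1 + |(n : ℝ)|) ^ 2)⁻¹ := fun n => by positivity
  refine (Finset.sum_le_sum_of_subset_of_nonneg h1 fun a _ _ =>
    Finset.prod_nonneg fun i _ => hpos _).trans ?_
  rw [← Finset.prod_univ_sum (fun i => F.image (fun a => a i))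
    (fun i n => (3 * (1 + |((n - c i : ℤ) : ℝ)|) ^ 2)⁻¹)]
  refine Finset.prod_le_one (fun i _ => Finset.sum_nonneg fun n _ => hpos _) fun i _ => ?_
  have h2 := sum_heavy_weight (M := 1) le_rfl ((F.image (fun a => a i)).image (fun n => n - c i))
  rw [Finset.sum_image (fun a _ b _ h => by simpa using h)] at h2
  refine le_trans (le_of_eq ?_) h2
  refine Finset.sum_congr rfl fun n _ => ?_
  rw [mul_one, div_one]

/-- an integer vector whose values are within `ρ ω + ρ ω'` of each other on the classes of `r`;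
the radius is not assumed to be measurable -/
theorem CE_tail {m : ℕ} (hp : IsProb p) (r : Setoid Ω) (X : Ω → Fin m → ℤ) (ρ : Ω → ℝ)
    (hX : ∀ ω ω', 0 < p ω → 0 < p ω' → r ω ω' → ∀ i, |(X ω i : ℝ) - X ω' i| ≤ ρ ω + ρ ω') :
    CE p (Setoid.ker X) r ≤ m * (2 * Ex p (fun ω => Real.log (1 + 2 * ρ ω)) + Real.log 3) := by
  classical
  -- a representative in the support with the smallest radius
  let s : Quotient r → Finset Ω := fun q =>
    Finset.univ.filter (fun x => 0 < p x ∧ Quotient.mk r x = q)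
  have hmin : ∀ q : Quotient r, ∀ ω : Ω, ∃ x, (s q).Nonempty →
      x ∈ s q ∧ ∀ y ∈ s q, ρ x ≤ ρ y := by
    intro q ω
    by_cases h : (s q).Nonempty
    · obtain ⟨x, hx, hx'⟩ := Finset.exists_min_image (s q) ρ h
      exact ⟨x, fun _ => ⟨hx, hx'⟩⟩
    · exact ⟨ω, fun h' => absurd h' h⟩
  rcases isEmpty_or_nonempty Ω with hΩ | ⟨⟨ω0⟩⟩
  · have := hp.2
    simp at this
  choose g hg using fun q => hmin q ω0
  have hf : ∀ ω, 0 < p ω → 0 < p (g (Quotient.mk r ω)) ∧ r ω (g (Quotient.mk r ω)) ∧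
      ρ (g (Quotient.mk r ω)) ≤ ρ ω := by
    intro ω h0
    have hm : ω ∈ s (Quotient.mk r ω) := by simp [s, h0]
    obtain ⟨h1, h2⟩ := hg (Quotient.mk r ω) ⟨ω, hm⟩
    have h3 := (Finset.mem_filter.1 h1).2
    exact ⟨h3.1, r.symm (Quotient.exact h3.2), h2 ω hm⟩
  have h := gibbs hp r X
    (fun ω a => ∏ i, (3 * (1 + |((a i - X (g (Quotient.mk r ω)) i : ℤ) : ℝ)|) ^ 2)⁻¹) ?_ ?_ ?_ ?_
  · unfold CE
    refine h.trans ?_
    have e : (m : ℝ) * (2 * Ex p (fun ω => Real.log (1 + 2 * ρ ω)) + Real.log 3)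
        = ∑ ω, p ω * (m * (2 * Real.log (1 + 2 * ρ ω) + Real.log 3)) := by
      have e2 : ∀ ω, p ω * (m * (2 * Real.log (1 + 2 * ρ ω) + Real.log 3))
          = m * 2 * (p ω * Real.log (1 + 2 * ρ ω)) + m * Real.log 3 * p ω := fun ω => by ring
      simp only [e2, Finset.sum_add_distrib, ← Finset.mul_sum]
      rw [hp.2]
      unfold Ex
      ring
    rw [e]
    refine Finset.sum_le_sum fun ω _ => ?_
    rcases (hp.1 ω).eq_or_lt with h0 | h0
    · rw [← h0]; simp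
    · refine mul_le_mul_of_nonneg_left ?_ h0.le
      obtain ⟨h1, h2, h3⟩ := hf ω h0
      rw [Real.log_prod (fun i _ => by positivity), ← Finset.sum_neg_distrib]
      refine (Finset.sum_le_sum (g := fun _ => 2 * Real.log (1 + 2 * ρ ω) + Real.log 3)
        fun i _ => ?_).trans (le_of_eq (by simp; ring))
      rw [Real.log_inv, neg_neg, Real.log_mul (by norm_num) (by positivity), Real.log_pow]
      have h4 := hX ω _ h0 h1 h2 i
      have h5 : Real.log (1 + |((X ω i - X (g (Quotient.mk r ω)) i : ℤ) : ℝ)|)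
          ≤ Real.log (1 + 2 * ρ ω) := by
        apply Real.log_le_log (by positivity)
        push_cast
        linarith
      push_cast at h5 ⊢
      linarith
  · intro ω a
    exact Finset.prod_nonneg fun i _ => by positivity
  · intro ω ω' h1 h2 h3
    have e : Quotient.mk r ω = Quotient.mk r ω' := Quotient.sound h3
    simp only [e]
  · intro ω F
    exact sum_tail _ F
  · intro ω h0
    exact Finset.prod_pos fun i _ => by positivity

/-- the height version of `CE_tail` -/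
theorem CE_tail_int (hp : IsProb p) (r : Setoid Ω) (X : Ω → ℤ) (ρ : Ω → ℝ)
    (hX : ∀ ω ω', 0 < p ω → 0 < p ω' → r ω ω' → |(X ω : ℝ) - X ω'| ≤ ρ ω + ρ ω') :
    CE p (Setoid.ker X) r ≤ 2 * Ex p (fun ω => Real.log (1 + 2 * ρ ω)) + Real.log 3 := by
  have h := CE_tail hp r (fun ω (_ : Fin 1) => X ω) ρ
    (fun ω ω' h0 h0' h _ => hX ω ω' h0 h0' h)
  have e : Setoid.ker (fun ω (_ : Fin 1) => X ω) = Setoid.ker X := by
    ext a b
    simp only [Setoid.ker_def]
    exact ⟨fun h => congrFun h 0, fun h => by rw [h]⟩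
  rw [e] at h
  simpa using h

/-- cells of real vectors, radius not measurable -/
theorem CE_tail_cell {m : ℕ} {δ : ℝ} (hδ : 0 < δ) (hp : IsProb p) (r : Setoid Ω)
    (u : Ω → Fin m → ℝ) (ρ : Ω → ℝ)
    (hX : ∀ ω ω', 0 < p ω → 0 < p ω' → r ω ω' → ∀ i, |u ω i - u ω' i| ≤ (ρ ω + ρ ω') * δ) :
    CE p (Setoid.ker (fun ω => cell δ (u ω))) r ≤
      m * (2 * Ex p (fun ω => Real.log (2 + 2 * ρ ω)) + Real.log 3) := by
  have h := CE_tail hp r (fun ω => cell δ (u ω)) (fun ω => ρ ω + 1 / 2) ?_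
  · refine h.trans (le_of_eq ?_)
    have e : (fun ω => Real.log (1 + 2 * (ρ ω + 1 / 2))) = fun ω => Real.log (2 + 2 * ρ ω) := by
      funext ω
      congr 1
      ring
    rw [e]
  · intro ω ω' h0 h0' h i
    have h1 := hX ω ω' h0 h0' h i
    have e1 : ∀ ω, ((cell δ (u ω) i : ℤ) : ℝ) = (⌊u ω i / δ⌋ : ℝ) := fun _ => rfl
    rw [e1, e1]
    have h3 : |u ω i / δ - u ω' i / δ| ≤ ρ ω + ρ ω' := by
      rw [← sub_div, abs_div, abs_of_pos hδ, div_le_iff₀ hδ]
      exact h1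
    have a1 := Int.floor_le (u ω i / δ)
    have a2 := Int.lt_floor_add_one (u ω i / δ)
    have a3 := Int.floor_le (u ω' i / δ)
    have a4 := Int.lt_floor_add_one (u ω' i / δ)
    rw [abs_le] at h3 ⊢
    constructor <;> linarith [h3.1, h3.2]

/-- a height with large conditional entropy is far from every known integer -/
theorem close_int {M : ℕ} (hp : IsProb p) (r : Setoid Ω) (u : Ω → ℤ) (T' : Ω → Fin M)
    (hu : ∀ ω ω', 0 < p ω → 0 < p ω' → r ω ω' → u ω = u ω') :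
    Ex p (fun ω => dn M (((T' ω : ℕ) : ℤ) - u ω)) ≤
      2 * (Real.log M + Real.log 5 - CE p (Setoid.ker T') r) + Real.log 2 := by
  rcases isEmpty_or_nonempty Ω with hΩ | ⟨⟨ω0⟩⟩
  · have := hp.2
    simp at this
  have hM : 0 < M := lt_of_le_of_lt (Nat.zero_le _) (T' ω0).2
  have hM' : (0 : ℝ) < M := by exact_mod_cast hM
  let T : Ω → Fin M := fun ω => ⟨(max 0 (min (u ω) (M - 1))).toNat, by omega⟩
  have hTv : ∀ ω, ((T ω : ℕ) : ℤ) = max 0 (min (u ω) (M - 1)) := by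
    intro ω
    simp only [T]
    omega
  have h := close hp r T T' (fun ω ω' h0 h0' h => by
    apply Fin.ext
    simp only [T]
    rw [hu ω ω' h0 h0' h])
  have key : ∀ ω, dn M (((T' ω : ℕ) : ℤ) - u ω) ≤ Real.log (1 / dst (T' ω) (T ω)) + Real.log 2 := by
    intro ω
    have hd := dst_pos (T' ω) (T ω)
    have hd1 := dst_le_one (T' ω) (T ω)
    have h1 : 1 ≤ 1 / dst (T' ω) (T ω) := by
      rw [le_div_iff₀ hd]
      linarith
    unfold dn
    rw [← Real.log_mul (by positivity) (by norm_num)]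
    have h2 : (M : ℝ) / max |((((T' ω : ℕ) : ℤ) - u ω : ℤ) : ℝ)| 1 ≤ 1 / dst (T' ω) (T ω) := by
      have h3 : dst (T' ω) (T ω) ≤ max |((((T' ω : ℕ) : ℤ) - u ω : ℤ) : ℝ)| 1 / M := by
        have e : dst (T' ω) (T ω) = max |((((T' ω : ℕ) : ℤ) - ((T ω : ℕ) : ℤ) : ℤ) : ℝ)| 1 / M := by
          unfold dst ht
          rw [← sub_div, abs_div, abs_of_pos hM', ← max_div_div_right hM'.le]
          push_cast
          rfl
        rw [e]
        refine div_le_div_of_nonneg_right (max_le_max_right _ ?_) hM'.le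
        have h4 : |(((T' ω : ℕ) : ℤ) - ((T ω : ℕ) : ℤ) : ℤ)| ≤ |((T' ω : ℕ) : ℤ) - u ω| := by
          rw [hTv ω]
          have := (T' ω).2
          rcases le_total 0 (u ω) with h5 | h5
          · rcases le_total (u ω) (M - 1) with h6 | h6
            · rw [min_eq_left h6, max_eq_right h5]
            · rw [min_eq_right h6, max_eq_right (by omega), abs_of_nonpos (by omega),
                abs_of_nonpos (by omega)]
              omega
          · rw [min_eq_left (by omega), max_eq_left h5, abs_of_nonneg (by omega),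
              abs_of_nonneg (by omega)]
            omega
        exact_mod_cast h4
      rw [le_div_iff₀ hd]
      calc _ ≤ (M : ℝ) / max |((((T' ω : ℕ) : ℤ) - u ω : ℤ) : ℝ)| 1
            * (max |((((T' ω : ℕ) : ℤ) - u ω : ℤ) : ℝ)| 1 / M) :=
            mul_le_mul_of_nonneg_left h3 (by positivity)
        _ = 1 := by
          have : 0 < max |((((T' ω : ℕ) : ℤ) - u ω : ℤ) : ℝ)| 1 := by positivity
          field_simp
    apply Real.log_le_log (by positivity)
    linarith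
  have h2 : Ex p (fun ω => dn M (((T' ω : ℕ) : ℤ) - u ω))
      ≤ ∑ ω, (p ω * Real.log (1 / dst (T' ω) (T ω)) + p ω * Real.log 2) := by
    unfold Ex
    refine Finset.sum_le_sum fun ω _ => ?_
    rw [← mul_add]
    exact mul_le_mul_of_nonneg_left (key ω) (hp.1 ω)
  rw [Finset.sum_add_distrib, ← Finset.sum_mul, hp.2, one_mul] at h2
  unfold CE
  linarith

end Pool.Agent.Helper6.Kak
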