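import Pool.Agent.Helper6.Kak.Defs

/-!
# Hybrid step: the random variables, the rules, the hypotheses of the bookkeeping

All random variables of the step live on one space `Z_z = Z_w × Z_w`, `Z_w = Y' × Y'`; the entropy of
a family which only involves variables of `Y'` (or `Z_w`) is the same on all the three spaces.

* `l0 , l1` : the pair of lines of `ω0`, they meet at height `T0` (point cell `P0`);
* `S` a further height on `l0` (cell `PS`), `R` a further height on `l1` (cell `PR`);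
* `l0 , l2` : the pair of lines of `ω1`, they meet at height `T1` (point cell `P1`);
* `b , b'` further heights on `l2` (cells `Pb , Pb'`);
* `tw = T1 + mv (R - T0) S T0 T1` (integer), `w = cell (P_{T1}(l0) + (tw - T1)/M v1)`;
* `tz = b + mv (tw - T1) b' T1 b` (integer), `z = cell (P_b(l2) + (tz - b)/M v1)`;
* `kq , Q` : scale and coarse tube of `(l0 , l0')`, `l0'` a copy glued over `(K,w,tw,S,PS)`;
* `kz , Qz` : scale and coarse tube of `(l2 , l2')`, `l2'` a copy glued over `(K,z,tz,kq,Q,b',Pb')`;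
* `Pz` : cell of side `2 ^ (-kz)` of the point of `l2` at height `b`.
-/

set_option autoImplicit false

namespace Pool.Agent.Helper6.Kak

open Pool.Agent.Helper8.Kak

/-- the random variables -/
inductive VH
  | K | l0 | l1 | l2 | T0 | T1 | S | R | b | b' | P0 | P1 | PS | PR | Pb | Pb' | tw | tz | w | z
  | kq | Q | kz | Qz | Pz
deriving DecidableEq

namespace Hy

open VH

/-- functional dependencies -/
def rules : List (VH × List (Finset VH)) :=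
  [(P0, [{l0, T0}, {l1, T0}]), (P1, [{l0, T1}, {l2, T1}]), (PS, [{l0, S}]), (PR, [{l1, R}]),
   (Pb, [{l2, b}]), (Pb', [{l2, b'}]), (tw, [{T0, T1, S, R}]), (tz, [{tw, T1, b, b'}]),
   (w, [{l0, l1, T1, tw}]), (z, [{l2, l1, b, tz}]), (Pz, [{l2, b, kz}])]

/-- the hypotheses on the entropies coming from the construction of the space -/
structure Base {Ω : Type} [Fintype Ω] (p : Ω → ℝ) (V : VH → Setoid Ω)
    (eK eL eB eT eP eB2 LM Lam : ℝ) : Prop where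
  hp : IsProb p
  hr : Valid p V rules
  hK : HH p V {K} = eK
  hL0 : HH p V {K, l0} = eL
  hL1 : HH p V {K, l1} = eL
  hL2 : HH p V {K, l2} = eL
  h00 : HH p V {K, l0, T0} = eB
  h01 : HH p V {K, l0, T1} = eB
  h0S : HH p V {K, l0, S} = eB
  h10 : HH p V {K, l1, T0} = eB
  h1R : HH p V {K, l1, R} = eB
  h21 : HH p V {K, l2, T1} = eB
  h2b : HH p V {K, l2, b} = eB
  h2b' : HH p V {K, l2, b'} = eB
  h010 : HH p V {K, l0, l1, T0} = eB2
  h021 : HH p V {K, l0, l2, T1} = eB2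
  hT0 : HH p V {K, T0} = eT
  hT1 : HH p V {K, T1} = eT
  hTS : HH p V {K, S} = eT
  hTR : HH p V {K, R} = eT
  hTb : HH p V {K, b} = eT
  hTb' : HH p V {K, b'} = eT
  hP0 : HH p V {K, T0, P0} = eP
  hP1 : HH p V {K, T1, P1} = eP
  hPS : HH p V {K, S, PS} = eP
  hPR : HH p V {K, R, PR} = eP
  hPb : HH p V {K, b, Pb} = eP
  hPb' : HH p V {K, b', Pb'} = eP
  tot : 2 * eB2 + 4 * eB - 5 * eL ≤ HH p V {K, l0, l1, l2, T0, T1, S, R, b, b'}
  lam1 : HH p V {K, S, R, PS, PR} - HH p V {K, S, R} = Lam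
  lam2 : HH p V {K, T0, b, P0, Pb} - HH p V {K, T0, b} = Lam
  eTM : eT - eK ≤ LM
  eBM : eB - eL ≤ LM

/-- the costs of the parameters; `LM - (eB - eL)` is the deficit `κ` of the heights,
`2 * eB - eP - eB2` is the mutual information `ι` of the lines of a pair -/
structure Par {Ω : Type} [Fintype Ω] (p : Ω → ℝ) (V : VH → Setoid Ω)
    (eK eL eB eT eP eB2 LM Lam kk : ℝ) : Prop extends Base p V eK eL eB eT eP eB2 LM Lam where
  kk0 : 0 ≤ kk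
  hκ : LM - (eB - eL) ≤ kk
  hι : 2 * eB - eP - eB2 ≤ kk
  /-- `R` from `tw` -/
  c1 : HH p V {tw, S, T0, T1, R} - HH p V {tw, S, T0, T1} ≤ kk
  c2 : HH p V {K, tw} - HH p V {K} ≤ LM + kk
  /-- `T1` from `tw` -/
  c9 : HH p V {tw, S, T0, R, T1} - HH p V {tw, S, T0, R} ≤ kk
  cz : HH p V {K, tz} - HH p V {K} ≤ LM + kk
  /-- `tw` from `tz` -/
  cU : HH p V {b', b, T1, tz, tw} - HH p V {b', b, T1, tz} ≤ kk

/-- the costs of the scales and of the tubes -/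
structure ParQ {Ω : Type} [Fintype Ω] (p : Ω → ℝ) (V : VH → Setoid Ω)
    (eK eL eB eT eP eB2 LM Lam kk : ℝ) : Prop extends
    Par p V eK eL eB eT eP eB2 LM Lam kk where
  q1 : HH p V {K, kq} - HH p V {K} ≤ kk
  q2 : HH p V {l0, kq, Q} - HH p V {l0, kq} ≤ kk
  u1 : HH p V {K, kz} - HH p V {K} ≤ kk

/-- all the costs -/
structure Hyp {Ω : Type} [Fintype Ω] (p : Ω → ℝ) (V : VH → Setoid Ω)
    (eK eL eB eT eP eB2 LM Lam kk A D Dz : ℝ) : Prop extends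
    ParQ p V eK eL eB eT eP eB2 LM Lam kk where
  /-- interval of the intersection height -/
  c3 : HH p V {K, l0, l1, T0} - HH p V {K, l0, l1} ≤ LM - A + kk
  c4 : HH p V {K, l0, l1, w, tw, T1} - HH p V {K, l0, l1, w, tw} ≤ LM - A + kk
  /-- `PS, PR, w` are collinear -/
  c5 : HH p V {PS, PR, S, R, tw, w} - HH p V {PS, PR, S, R, tw} ≤ kk
  c6 : HH p V {PS, w, S, R, tw, PR} - HH p V {PS, w, S, R, tw} ≤ kk
  /-- plane lemma -/
  c7 : HH p V {K, l0, R, PR, l1} - HH p V {K, l0, R, PR} ≤ kk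
  /-- `w` lies in a segment -/
  c8 : HH p V {K, l0, l1, tw, w} - HH p V {K, l0, l1, tw} ≤ A + kk
  d1 : HH p V {z, Pb, b, tz, l1} - HH p V {z, Pb, b, tz} ≤ kk
  /-- plane lemma -/
  d2 : HH p V {K, l1, T1, P1, l0} - HH p V {K, l1, T1, P1} ≤ kk
  /-- `Pb', w, z` are collinear -/
  d5 : HH p V {Pb', w, b', tw, tz, z} - HH p V {Pb', w, b', tw, tz} ≤ kk
  /-- (Z3) -/
  d6 : HH p V {K, l2, z, tz, Q, kq, b, T1} - HH p V {K, l2, z, tz, Q, kq} ≤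
    2 * (HH p V {K, l2, z, tz, Q, kq, b', tw} - HH p V {K, l2, z, tz, Q, kq, b'}) + kk
  /-- intersection of a line with a tube -/
  d7 : HH p V {K, l2, Q, kq, T1} - HH p V {K, l2, Q, kq} ≤ LM - D + kk
  d8 : HH p V {K, l1, Q, kq, T0} - HH p V {K, l1, Q, kq} ≤ LM - D + kk
  u2 : HH p V {b, kz, Qz, Pz} - HH p V {b, kz, Qz} ≤ kk
  /-- the coarse cell of a point from the fine cell -/
  u4 : HH p V {b, Pb, kz, Pz} - HH p V {b, Pb, kz} ≤ kk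
  /-- lemma U -/
  u3 : Dz / 2 - kk ≤ HH p V {K, tz, kq, kz, b, Pz} - HH p V {K, tz, kq, kz, b}
  D0 : - kk ≤ D
  Dz0 : - kk ≤ Dz

/-- inductive hypothesis for the system `(l0 | K, w, tw)`, height `S` -/
def IHw {Ω : Type} [Fintype Ω] (p : Ω → ℝ) (V : VH → Setoid Ω) (LM kk A D β c C : ℝ) : Prop :=
  (HH p V {K, w, tw, l0} - HH p V {K, w, tw})
    + (β - 1) * (HH p V {K, w, tw, kq, Q} - HH p V {K, w, tw, kq}) + c * (A - D) ≤
  β * (HH p V {K, w, tw, S, PS} - HH p V {K, w, tw, S})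
    + C * (LM - (HH p V {K, w, tw, l0, S} - HH p V {K, w, tw, l0}) + kk)

/-- inductive hypothesis for the system `(l2 | K, z, tz, kq, Q)`, height `b'` -/
def IHz {Ω : Type} [Fintype Ω] (p : Ω → ℝ) (V : VH → Setoid Ω) (LM kk A Dz β c C : ℝ) : Prop :=
  (HH p V {K, z, tz, kq, Q, l2} - HH p V {K, z, tz, kq, Q})
    + (β - 1) * (HH p V {K, z, tz, kq, Q, kz, Qz} - HH p V {K, z, tz, kq, Q, kz})
    + c * (A - Dz) ≤
  β * (HH p V {K, z, tz, kq, Q, b', Pb'} - HH p V {K, z, tz, kq, Q, b'})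
    + C * (LM - (HH p V {K, z, tz, kq, Q, l2, b'} - HH p V {K, z, tz, kq, Q, l2}) + kk)

/-- (1a) -/
def Fact1a : Prop :=
  ∃ N : ℝ, 0 ≤ N ∧ ∀ {Ω : Type} [Fintype Ω] (p : Ω → ℝ) (V : VH → Setoid Ω)
    (eK eL eB eT eP eB2 LM Lam kk A D Dz β c C : ℝ),
    Hyp p V eK eL eB eT eP eB2 LM Lam kk A D Dz → IHw p V LM kk A D β c C →
    1 ≤ β → β ≤ 2 → 0 ≤ c → c ≤ 1 → 0 ≤ C →
    (eL - eK) + ((eL - eK) - (eP - eT)) + 2 * A
      + (β - 1) * (HH p V {K, tw, w, kq, Q} - HH p V {K, tw, kq}) + c * (A - D) ≤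
      β * (Lam + A) + N * (C + 1) * kk

/-- (2*) -/
def Fact2 : Prop :=
  ∃ N : ℝ, 0 ≤ N ∧ ∀ {Ω : Type} [Fintype Ω] (p : Ω → ℝ) (V : VH → Setoid Ω)
    (eK eL eB eT eP eB2 LM Lam kk A D Dz β c C : ℝ),
    Hyp p V eK eL eB eT eP eB2 LM Lam kk A D Dz → IHz p V LM kk A Dz β c C →
    1 ≤ β → β ≤ 2 → 0 ≤ c → c ≤ (β - 1) / 2 → 0 ≤ C →
    (eL - eK) + 2 * ((eL - eK) - (eP - eT)) + A + β / 2 * D
      + (β - 1) * ((eL - eK) - 2 * (eP - eT) + Lam) + c * A ≤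
      β * ((eP - eT) + (HH p V {K, tw, w, kq, Q} - HH p V {K, tw, kq})) + N * (C + 1) * kk

/-- near uniformity of the parameters, without the tube -/
def FactJ : Prop :=
  ∃ N : ℝ, 0 ≤ N ∧ ∀ {Ω : Type} [Fintype Ω] (p : Ω → ℝ) (V : VH → Setoid Ω)
    (eK eL eB eT eP eB2 LM Lam kk : ℝ), Par p V eK eL eB eT eP eB2 LM Lam kk →
    LM - N * kk ≤ HH p V {K, l0, l1, T0, T1, tw, S} - HH p V {K, l0, l1, T0, T1, tw} ∧
    LM - N * kk ≤ HH p V {K, l0, l1, T0, S, tw, R} - HH p V {K, l0, l1, T0, S, tw} ∧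
    LM - N * kk ≤ HH p V {K, l0, l1, l2, T0, T1, b, b', S, tw}
      - HH p V {K, l0, l1, l2, T0, T1, b, b', S} ∧
    LM - N * kk ≤ HH p V {K, l0, l1, l2, T0, T1, b, b', S, tz}
      - HH p V {K, l0, l1, l2, T0, T1, b, b', S} ∧
    LM - N * kk ≤ HH p V {K, l0, l1, l2, T0, T1, b, tz, b'}
      - HH p V {K, l0, l1, l2, T0, T1, b, tz} ∧
    LM - N * kk ≤ HH p V {K, l0, l1, l2, T0, T1, tz, b}
      - HH p V {K, l0, l1, l2, T0, T1, tz} ∧
    LM - N * kk ≤ HH p V {K, l0, tz, T1} - HH p V {K, l0, tz}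

/-- near uniformity of the parameters, with scales and tube -/
def FactJQ : Prop :=
  ∃ N : ℝ, 0 ≤ N ∧ ∀ {Ω : Type} [Fintype Ω] (p : Ω → ℝ) (V : VH → Setoid Ω)
    (eK eL eB eT eP eB2 LM Lam kk : ℝ), ParQ p V eK eL eB eT eP eB2 LM Lam kk →
    LM - N * kk ≤ HH p V {K, l0, l1, l2, T0, T1, b, tz, kq, Q, b'}
      - HH p V {K, l0, l1, l2, T0, T1, b, tz, kq, Q} ∧
    LM - N * kk ≤ HH p V {K, l0, l1, l2, T0, T1, tz, kq, kz, b}
      - HH p V {K, l0, l1, l2, T0, T1, tz, kq, kz} ∧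
    LM - N * kk ≤ HH p V {K, l0, tz, kq, kz, T1} - HH p V {K, l0, tz, kq, kz}

end Hy

/-! ## statements of the geometric lemmas -/

/-- plane lemma: a line meeting `l0` transversally is determined, up to a doubly logarithmic error,
by `l0` and by its point at a random height `R` -/
def PlaneS (m : ℕ) : Prop :=
  ∃ C : ℝ, 0 ≤ C ∧ ∀ (M : ℕ) (G : Geo m M) {Ω : Type} [Fintype Ω] (p : Ω → ℝ), IsProb p →
    ∀ (K : Setoid Ω) (l0 l1 : Ω → G.L) (T R : Ω → Fin M) (k : Ω → ℕ) (κ : ℝ),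
    (∀ ω ω', 0 < p ω → 0 < p ω' → K ω ω' → k ω = k ω') →
    (∀ ω, 0 < p ω → k ω ≤ JJ G.δ) →
    (∀ ω, 0 < p ω → G.P (l1 ω) (T ω) = G.P (l0 ω) (T ω)) →
    (∀ ω, 0 < p ω → ∀ i, |G.v (l1 ω) i - G.v (l0 ω) i| ≤ 8 * (1 / 2) ^ k ω) →
    (∀ ω, 0 < p ω → k ω = JJ G.δ ∨ ∃ i, (1 / 2) ^ k ω < |G.v (l1 ω) i - G.v (l0 ω) i|) →
    Real.log M - κ ≤ CE p (Setoid.ker R) (K ⊓ Setoid.ker l0 ⊓ Setoid.ker l1 ⊓ Setoid.ker T) →
    CE p (Setoid.ker l1)
      (K ⊓ Setoid.ker l0 ⊓ Setoid.ker R ⊓ Setoid.ker (fun ω => G.P (l1 ω) (R ω))) ≤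
      C * (κ + ell M)

/-- lemma U -/
def LemU (m : ℕ) : Prop :=
  ∃ C : ℝ, 0 ≤ C ∧ ∀ (M : ℕ) (G : Geo m M) {Ω : Type} [Fintype Ω] (p : Ω → ℝ), IsProb p →
    ∀ (K : Setoid Ω) (l l0 : Ω → G.L) (b T : Ω → Fin M) (k kz : Ω → ℕ) (κ1 κ2 : ℝ),
    (∀ ω ω', 0 < p ω → 0 < p ω' → K ω ω' → k ω = k ω' ∧ kz ω = kz ω') →
    (∀ ω, 0 < p ω → kz ω ≤ JJ G.δ) →
    (∀ ω, 0 < p ω → G.P (l ω) (T ω) = G.P (l0 ω) (T ω)) →
    (∀ ω, 0 < p ω → k ω = JJ G.δ ∨ ∃ i, (1 / 2) ^ k ω < |G.v (l ω) i - G.v (l0 ω) i|) →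
    Real.log M - κ1 ≤ CE p (Setoid.ker b) (K ⊓ Setoid.ker l ⊓ Setoid.ker l0 ⊓ Setoid.ker T) →
    Real.log M - κ2 ≤ CE p (Setoid.ker T) (K ⊓ Setoid.ker l0) →
    Ex p (fun ω => ((kz ω : ℝ) - k ω) * Real.log 2) / 2 - C * (κ1 + κ2 + 1) ≤
      CE p (Setoid.ker (fun ω => cell ((1 / 2) ^ kz ω) (pnt G.x G.v (l ω) (b ω))))
        (K ⊓ Setoid.ker b)

/-- the final inequality, input of the passage to Hausdorff dimension -/
def GapH (m : ℕ) (g : ℝ) : Prop :=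
  ∃ C : ℝ, 0 ≤ C ∧ ∀ (M : ℕ) (G : Geo m M) (S : Sys G),
    S.a ≤ S.h + g * Real.log (1 / G.δ) + C * (S.κ + ell M)

end Pool.Agent.Helper6.Kak
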