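import Pool.Agent.Helper6.Kak.Defs
import Pool.Agent.Helper6.Kak.Pair

/-!
# Scales, coarse tubes
-/

set_option autoImplicit false

namespace Pool.Agent.Helper6.Kak

open Pool.Agent.Helper8.Kak

/-! ### the number of scales -/

theorem JJ_le {δ : ℝ} (hδ : 0 < δ) : (1 / 2 : ℝ) ^ JJ δ ≤ δ := by
  have h1 : Real.logb 2 (1 / δ) ≤ JJ δ := Nat.le_ceil _
  have h2 : 1 / δ ≤ (2 : ℝ) ^ (JJ δ : ℝ) := by
    rwa [Real.logb_le_iff_le_rpow (by norm_num) (by positivity)] at h1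
  rw [Real.rpow_natCast] at h2
  rw [div_pow, one_pow, div_le_iff₀ (by positivity)]
  rw [div_le_iff₀ hδ] at h2
  linarith

theorem le_JJ {δ : ℝ} (hδ : 0 < δ) (hδ1 : δ ≤ 1) : δ ≤ 2 * (1 / 2 : ℝ) ^ JJ δ := by
  have h0 : 0 ≤ Real.logb 2 (1 / δ) := by
    apply Real.logb_nonneg (by norm_num)
    rw [le_div_iff₀ hδ]
    linarith
  have h1 : (JJ δ : ℝ) < Real.logb 2 (1 / δ) + 1 := Nat.ceil_lt_add_one h0
  have h2 : (2 : ℝ) ^ ((JJ δ : ℝ) - 1) ≤ 1 / δ := by
    rw [← Real.le_logb_iff_rpow_le (by norm_num) (by positivity)]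
    linarith
  rw [Real.rpow_sub (by norm_num), Real.rpow_natCast, Real.rpow_one] at h2
  rw [div_pow, one_pow]
  rw [div_le_div_iff₀ (by norm_num) hδ] at h2
  have h3 : (0 : ℝ) < 2 ^ JJ δ := by positivity
  rw [mul_div_assoc', le_div_iff₀ h3]
  linarith

theorem half_pow_le {j k : ℕ} (h : j ≤ k) : (1 / 2 : ℝ) ^ k ≤ (1 / 2) ^ j :=
  pow_le_pow_of_le_one (by norm_num) (by norm_num) h

theorem le_half {δ : ℝ} (hδ : 0 < δ) (hδ1 : δ ≤ 1) {k : ℕ} (h : k ≤ JJ δ) :
    δ ≤ 2 * (1 / 2 : ℝ) ^ k := by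
  have := half_pow_le h
  linarith [le_JJ hδ hδ1]

theorem log_half (k : ℕ) : Real.log ((1 / 2 : ℝ) ^ k) = - (k * Real.log 2) := by
  rw [Real.log_pow, one_div, Real.log_inv]
  ring

/-- `exp (gap)` -/
theorem exp_gap {δ : ℝ} (hδ : 0 < δ) (k : ℕ) : Real.exp (gap δ k) = (1 / 2 : ℝ) ^ k / δ := by
  have h1 : 0 < (1 / 2 : ℝ) ^ k / δ := by positivity
  rw [← Real.exp_log h1, Real.log_div (by positivity) hδ.ne', log_half]
  unfold gap
  rw [one_div, Real.log_inv]
  congr 1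
  ring

theorem gap_ge {δ : ℝ} (hδ : 0 < δ) (hδ1 : δ ≤ 1) {k : ℕ} (h : k ≤ JJ δ) :
    - Real.log 2 ≤ gap δ k := by
  have h1 := le_half hδ hδ1 h
  have h2 : (2 : ℝ)⁻¹ ≤ (1 / 2 : ℝ) ^ k / δ := by
    rw [le_div_iff₀ hδ]
    linarith
  rw [← exp_gap hδ] at h2
  have h4 := Real.log_le_log (by norm_num) h2
  rw [Real.log_exp, Real.log_inv] at h4
  exact h4

theorem gap_le (δ : ℝ) (k : ℕ) : gap δ k ≤ Real.log (1 / δ) := by
  unfold gap
  have : 0 ≤ (k : ℝ) * Real.log 2 := by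
    have := Real.log_pos (by norm_num : (1:ℝ) < 2)
    positivity
  linarith

theorem log_inv_nonneg {δ : ℝ} (hδ : 0 < δ) (hδ1 : δ ≤ 1) : 0 ≤ Real.log (1 / δ) := by
  apply Real.log_nonneg
  rw [le_div_iff₀ hδ]
  linarith

theorem log_inv_le {m M : ℕ} (G : Geo m M) : Real.log (1 / G.δ) ≤ Real.log M := by
  apply Real.log_le_log (by have := G.hδ; positivity)
  rw [div_le_iff₀ G.hδ]
  linarith [G.hM]

theorem one_le_M' {m M : ℕ} (G : Geo m M) : (1 : ℝ) ≤ M := by
  have h1 := G.hM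
  have h2 := G.hδ1
  have h3 := G.hδ
  have h4 : (0 : ℝ) ≤ M := Nat.cast_nonneg _
  nlinarith

theorem log_M_nonneg {m M : ℕ} (G : Geo m M) : 0 ≤ Real.log M := Real.log_nonneg (one_le_M' G)

theorem one_le_ell {m M : ℕ} (G : Geo m M) : 1 ≤ ell M := by
  unfold ell
  have h1 := log_M_nonneg G
  have h2 : Real.log 3 ≤ Real.log (Real.log M + 3) := Real.log_le_log (by norm_num) (by linarith)
  have h3 : (1 : ℝ) ≤ Real.log 3 := by
    rw [Real.le_log_iff_exp_le (by norm_num)]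
    have := Real.exp_one_lt_d9
    linarith
  linarith

theorem log_JJ {m M : ℕ} (G : Geo m M) : Real.log (JJ G.δ + 1) ≤ 2 * ell M := by
  have h0 : 0 ≤ Real.logb 2 (1 / G.δ) := by
    apply Real.logb_nonneg (by norm_num)
    rw [le_div_iff₀ G.hδ]
    linarith [G.hδ1]
  have h1 : (JJ G.δ : ℝ) < Real.logb 2 (1 / G.δ) + 1 := Nat.ceil_lt_add_one h0
  have h2 : Real.logb 2 (1 / G.δ) ≤ 2 * Real.log M := by
    rw [Real.logb, div_le_iff₀ (Real.log_pos (by norm_num))]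
    have h3 := log_inv_le G
    have h4 := log_M_nonneg G
    have h5 : (1 : ℝ) / 2 ≤ Real.log 2 := by
      have := Real.log_two_gt_d9
      linarith
    nlinarith
  have h4 := log_M_nonneg G
  have h5 : (JJ G.δ : ℝ) + 1 ≤ 2 * (Real.log M + 3) := by linarith
  have h6 : Real.log (JJ G.δ + 1) ≤ Real.log (2 * (Real.log M + 3)) :=
    Real.log_le_log (by positivity) h5
  rw [Real.log_mul (by norm_num) (by positivity)] at h6
  have h7 : Real.log 2 ≤ 1 := by
    have := Real.log_two_lt_d9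
    linarith
  have h8 := one_le_ell G
  unfold ell at *
  linarith

/-! ### the scale of a pair of lines -/

section sc

variable {m M : ℕ} (G : Geo m M)

theorem sc_le (l l' : G.L) : sc G l l' ≤ JJ G.δ := Nat.findGreatest_le _

theorem sc_symm (l l' : G.L) : sc G l l' = sc G l' l := by
  unfold sc
  congr 1
  funext k
  simp only [abs_sub_comm]

open scoped Classical in
theorem sc_spec (l l' : G.L) (i : Fin m) :
    |G.v l i - G.v l' i| ≤ 2 * (1 / 2) ^ sc G l l' := by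
  have h := Nat.findGreatest_spec (P := fun k => ∀ i, |G.v l i - G.v l' i| ≤ 2 * (1 / 2) ^ k)
    (Nat.zero_le (JJ G.δ)) (fun i => by
      have h1 := G.hv l i
      have h2 := G.hv l' i
      have h3 := abs_sub (G.v l i) (G.v l' i)
      rw [pow_zero]
      linarith)
  exact h i

open scoped Classical in
theorem sc_gt (l l' : G.L) (h : sc G l l' ≠ JJ G.δ) :
    ∃ i, (1 / 2) ^ sc G l l' < |G.v l i - G.v l' i| := by
  have h1 : sc G l l' < JJ G.δ := lt_of_le_of_ne (sc_le G l l') h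
  have h2 := Nat.findGreatest_is_greatest
    (P := fun k => ∀ i, |G.v l i - G.v l' i| ≤ 2 * (1 / 2) ^ k) (n := JJ G.δ)
    (k := sc G l l' + 1) (by exact Nat.lt_succ_self _) h1
  simp only [not_forall, not_le] at h2
  obtain ⟨i, hi⟩ := h2
  refine ⟨i, ?_⟩
  rw [pow_succ] at hi
  linarith

open scoped Classical in
theorem le_sc (l l' : G.L) {k : ℕ} (hk : k ≤ JJ G.δ)
    (h : ∀ i, |G.v l i - G.v l' i| ≤ 8 * (1 / 2) ^ k) : k ≤ sc G l l' + 2 := by
  by_contra h1
  rw [not_le] at h1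
  have h2 : k - 2 ≤ sc G l l' := by
    apply Nat.le_findGreatest (by omega)
    intro i
    refine (h i).trans (le_of_eq ?_)
    have e : k = (k - 2) + 2 := by omega
    rw [e, pow_add]
    simp only [Nat.add_sub_cancel]
    ring
  omega

theorem cc_fst (k : ℕ) (l : G.L) : (cc G k l).1 = cell ((1 / 2) ^ k) (G.x l) := rfl
theorem cc_snd (k : ℕ) (l : G.L) : (cc G k l).2 = cell ((1 / 2) ^ k) (G.v l) := rfl

theorem tb_symm (l l' : G.L) : tb G l l' = tb G l' l := by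
  unfold tb
  rw [sc_symm G l l', Sym2.eq_swap]

theorem cell_eq_near {δ : ℝ} (hδ : 0 < δ) {u w : Fin m → ℝ} (h : cell δ u = cell δ w) (i : Fin m) :
    |u i - w i| ≤ δ := by
  have e : (⌊u i / δ⌋ : ℤ) = ⌊w i / δ⌋ := congrFun h i
  have h1 := Int.abs_sub_lt_one_of_floor_eq_floor e
  rw [← sub_div, abs_div, abs_of_pos hδ, div_lt_one hδ] at h1
  exact h1.le

theorem cc_near {k : ℕ} {l l' : G.L} (h : cc G k l = cc G k l') (i : Fin m) :
    |G.x l i - G.x l' i| ≤ (1 / 2) ^ k ∧ |G.v l i - G.v l' i| ≤ (1 / 2) ^ k := by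
  have h1 := congrArg Prod.fst h
  have h2 := congrArg Prod.snd h
  rw [cc_fst, cc_fst] at h1
  rw [cc_snd, cc_snd] at h2
  exact ⟨cell_eq_near (by positivity) h1 i, cell_eq_near (by positivity) h2 i⟩

/-- two lines through a common point -/
theorem near_of_P {k : ℕ} (hk : k ≤ JJ G.δ) {l l' : G.L} {t : Fin M} (h : G.P l t = G.P l' t)
    {a : ℝ} (hv : ∀ i, |G.v l i - G.v l' i| ≤ a * (1 / 2) ^ k) (i : Fin m) :
    |G.x l i - G.x l' i| ≤ (a + 2) * (1 / 2) ^ k := by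
  have h1 := cell_eq_near G.hδ h i
  have h2 := le_half G.hδ G.hδ1 hk
  have h3 : |ht t * (G.v l i - G.v l' i)| ≤ a * (1 / 2) ^ k := by
    rw [abs_mul, abs_of_nonneg (ht_nonneg t)]
    calc _ ≤ 1 * (a * (1 / 2) ^ k) :=
        mul_le_mul (ht_lt_one t).le (hv i) (abs_nonneg _) zero_le_one
      _ = _ := one_mul _
  have e : G.x l i - G.x l' i = (pnt G.x G.v l t i - pnt G.x G.v l' t i)
      - ht t * (G.v l i - G.v l' i) := by
    unfold pnt
    ring
  rw [e]
  have h4 := abs_sub (pnt G.x G.v l t i - pnt G.x G.v l' t i) (ht t * (G.v l i - G.v l' i))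
  linarith

/-- lines of pairs with the same tube and scale are close to each other -/
theorem tb_near {l l' n n' : G.L} (hs : sc G l l' = sc G n n') (hQ : tb G l l' = tb G n n')
    {t : Fin M} (hn : G.P n t = G.P n' t) (i : Fin m) :
    |G.x l i - G.x n i| ≤ 5 * (1 / 2) ^ sc G l l' ∧
      |G.v l i - G.v n i| ≤ 3 * (1 / 2) ^ sc G l l' := by
  unfold tb at hQ
  rw [← hs, Sym2.eq_iff] at hQ
  have hp : (0 : ℝ) < (1 / 2) ^ sc G l l' := by positivity
  rcases hQ with ⟨h1, _⟩ | ⟨h1, _⟩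
  · obtain ⟨h3, h4⟩ := cc_near G h1 i
    constructor <;> linarith
  · obtain ⟨h3, h4⟩ := cc_near G h1 i
    have h5 := sc_spec G n n' i
    rw [← hs] at h5
    have h6 := near_of_P G (sc_le G n n') hn (sc_spec G n n') i
    rw [← hs] at h6
    constructor
    · have e : G.x l i - G.x n i = (G.x l i - G.x n' i) - (G.x n i - G.x n' i) := by ring
      rw [e]
      have := abs_sub (G.x l i - G.x n' i) (G.x n i - G.x n' i)
      linarith
    · have e : G.v l i - G.v n i = (G.v l i - G.v n' i) - (G.v n i - G.v n' i) := by ring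
      rw [e]
      have := abs_sub (G.v l i - G.v n' i) (G.v n i - G.v n' i)
      linarith

end sc

/-! ### entropies -/

section ent

variable {Ω : Type} [Fintype Ω] {p : Ω → ℝ}

/-- coarse cells of real vectors which are close at the scale given by `k` -/
theorem CE_ccell {m : ℕ} (hp : IsProb p) (r : Setoid Ω) (u : Ω → Fin m → ℝ) (k : Ω → ℕ) {a : ℝ}
    (ha : 0 ≤ a) (hX : ∀ ω ω', 0 < p ω → 0 < p ω' → r ω ω' → k ω = k ω' ∧
      ∀ i, |u ω i - u ω' i| ≤ a * (1 / 2) ^ k ω) :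
    CE p (Setoid.ker (fun ω => cell ((1 / 2) ^ k ω) (u ω))) r ≤ m * Real.log (2 * a + 3) := by
  have h := CE_vec hp r (fun ω => cell ((1 / 2) ^ k ω) (u ω)) (fun _ => a + 1)
    (fun _ => by linarith) (fun _ _ _ _ _ => rfl) ?_
  · refine h.trans (le_of_eq ?_)
    congr 1
    unfold Ex
    rw [← Finset.sum_mul, hp.2, one_mul]
    ring_nf
  · intro ω ω' h0 h0' h i
    obtain ⟨hk, h1⟩ := hX ω ω' h0 h0' h
    have h1 := h1 i
    have hδ : (0 : ℝ) < (1 / 2) ^ k ω := by positivity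
    have e1 : ((cell ((1 / 2) ^ k ω) (u ω) i : ℤ) : ℝ) = (⌊u ω i / (1 / 2) ^ k ω⌋ : ℝ) := rfl
    have e2 : ((cell ((1 / 2) ^ k ω') (u ω') i : ℤ) : ℝ) = (⌊u ω' i / (1 / 2) ^ k ω⌋ : ℝ) := by
      rw [hk]; rfl
    rw [e1, e2]
    have h3 : |u ω i / (1 / 2) ^ k ω - u ω' i / (1 / 2) ^ k ω| ≤ a := by
      rw [← sub_div, abs_div, abs_of_pos hδ, div_le_iff₀ hδ]
      exact h1
    have a1 := Int.floor_le (u ω i / (1 / 2) ^ k ω)
    have a2 := Int.lt_floor_add_one (u ω i / (1 / 2) ^ k ω)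
    have a3 := Int.floor_le (u ω' i / (1 / 2) ^ k ω)
    have a4 := Int.lt_floor_add_one (u ω' i / (1 / 2) ^ k ω)
    rw [abs_le] at h3 ⊢
    constructor <;> linarith [h3.1, h3.2]

/-- a bounded natural number -/
theorem CE_nat (hp : IsProb p) (r : Setoid Ω) (k : Ω → ℕ) (J : ℕ) (hk : ∀ ω, 0 < p ω → k ω ≤ J) :
    CE p (Setoid.ker k) r ≤ Real.log (J + 1) := by
  have h := gibbs hp r k (fun _ a => if a ≤ J then ((J : ℝ) + 1)⁻¹ else 0)
    (fun _ _ => by split_ifs <;> positivity) (fun _ _ _ _ _ => rfl) ?_ ?_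
  · unfold CE
    refine h.trans ?_
    have e : ∀ ω, p ω * -Real.log (if k ω ≤ J then ((J : ℝ) + 1)⁻¹ else 0)
        ≤ p ω * Real.log (J + 1) := by
      intro ω
      rcases (hp.1 ω).eq_or_lt with h0 | h0
      · rw [← h0]; simp
      · rw [if_pos (hk ω h0), Real.log_inv, neg_neg]
    refine (Finset.sum_le_sum fun ω _ => e ω).trans (le_of_eq ?_)
    rw [← Finset.sum_mul, hp.2, one_mul]
  · intro ω F
    rw [← Finset.sum_filter, Finset.sum_const, nsmul_eq_mul, ← div_eq_mul_inv]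
    refine div_le_one_of_le₀ ?_ (by positivity)
    have h1 : F.filter (fun a => a ≤ J) ⊆ Finset.range (J + 1) := by
      intro a ha
      have := (Finset.mem_filter.1 ha).2
      rw [Finset.mem_range]
      omega
    have h2 := Finset.card_le_card h1
    rw [Finset.card_range] at h2
    exact_mod_cast h2
  · intro ω h0
    rw [if_pos (hk ω h0)]
    positivity

end ent

end Pool.Agent.Helper6.Kak
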