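import Pool.Agent.Helper8.Hyb.Lift

/-!
# The costs of the scales and of the first tube
-/

set_option autoImplicit false

namespace Pool.Agent.Helper6.Kak

open Pool.Agent.Helper8.Kak Pool.Agent.Helper8.Hyb Pool.Agent.Helper90.Kak

theorem q1' (m : ℕ) : ∃ N : ℝ, 0 ≤ N ∧ ∀ (M : ℕ) (G : Geo m M) (S : PSys G),
    HH (pw S) (VW S) {.K, .kq} - HH (pw S) (VW S) {.K} ≤ N * (S.κ + S.ι + ell M) := by
  refine ⟨2, by norm_num, fun M G S => ?_⟩
  rw [cost_eq (V := VW S) {.K} {.K, .kq} .kq (by decide +kernel)]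
  refine (Pool.Agent.Helper81.Kak.CE_scale (G := G) (hpw S) _ (kZ (Sw S))
    (fun z => sc_le G _ _)).trans ?_
  exact mul_le_mul_of_nonneg_left (XX_ell S) (by norm_num)

theorem u1' (m : ℕ) : ∃ N : ℝ, 0 ≤ N ∧ ∀ (M : ℕ) (G : Geo m M) (S : PSys G),
    HH (pzz S) (VZ S) {.K, .kz} - HH (pzz S) (VZ S) {.K} ≤ N * (S.κ + S.ι + ell M) := by
  refine ⟨2, by norm_num, fun M G S => ?_⟩
  rw [cost_eq (V := VZ S) {.K} {.K, .kz} .kz (by decide +kernel)]
  refine (Pool.Agent.Helper81.Kak.CE_scale (G := G) (hpz S) _ (kZ (Sz S))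
    (fun z => sc_le G _ _)).trans ?_
  exact mul_le_mul_of_nonneg_left (XX_ell S) (by norm_num)

theorem q2' (m : ℕ) : ∃ N : ℝ, 0 ≤ N ∧ ∀ (M : ℕ) (G : Geo m M) (S : PSys G),
    HH (pw S) (VW S) {.l0, .kq, .Q} - HH (pw S) (VW S) {.l0, .kq} ≤
      N * (S.κ + S.ι + ell M) := by
  refine ⟨6 * m, by positivity, fun M G S => ?_⟩
  rw [cost_eq (V := VW S) {.l0, .kq} {.l0, .kq, .Q} .Q (by decide +kernel)]
  have h := Pool.Agent.Helper81.Kak.CE_tube (G := G) (hpw S)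
    (({.l0, .kq} : Finset VH).inf (VW S)) (fun z => (Sw S).l z.1) (fun z => (Sw S).l z.2)
    (fun z => S.T (dS z.1)) (fun z hz => by
      obtain ⟨_, h2, h3⟩ := lkw S hz
      rw [← h2] at h3
      exact h3) (fun z z' _ _ g => by
      rw [inf_rel] at g
      exact ⟨g .l0 (by decide +kernel), g .kq (by decide +kernel)⟩)
  refine h.trans ?_
  have h1 := XX_ge S
  have h2 : (0 : ℝ) ≤ 6 * m := by positivity
  unfold XX at h1
  nlinarith

end Pool.Agent.Helper6.Kak
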