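import Pool.Agent.Helper8.Kak.Sys

/-!
# Hybrid of the hairbrush and the sums-differences arguments: definitions

A pair system is a system with a measure preserving map `σ`, so that `l` and `l ∘ σ` are two lines
through a common point at height `T`; given the partition `K` all lines lie in a tube of radius
`8 * 2 ^ (-k)` and the two lines of a pair make an angle at least `2 ^ (-k)`.
-/

set_option autoImplicit false

namespace Pool.Agent.Helper6.Kak

open Pool.Agent.Helper8.Kak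

/-- number of dyadic scales above `δ` -/
noncomputable def JJ (δ : ℝ) : ℕ := ⌈Real.logb 2 (1 / δ)⌉₊

/-- the double logarithmic error -/
noncomputable def ell (M : ℕ) : ℝ := Real.log (Real.log M + 3)

/-- logarithm of `2 ^ (-k) / δ` -/
noncomputable def gap (δ : ℝ) (k : ℕ) : ℝ := Real.log (1 / δ) - k * Real.log 2

/-- a pair system -/
structure PSys {m M : ℕ} (G : Geo m M) extends Sys G where
  σ : Ω → Ω
  k : Ω → ℕ
  mp : MP p p σ
  Kσ : ∀ ω, 0 < p ω → K ω (σ ω)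
  Tσ : ∀ ω, 0 < p ω → T (σ ω) = T ω
  Pσ : ∀ ω, 0 < p ω → G.P (l (σ ω)) (T ω) = G.P (l ω) (T ω)
  kK : ∀ ω ω', 0 < p ω → 0 < p ω' → K ω ω' → k ω = k ω'
  kJ : ∀ ω, 0 < p ω → k ω ≤ JJ G.δ
  tub : ∀ ω ω', 0 < p ω → 0 < p ω' → K ω ω' → ∀ i,
    |G.v (l ω) i - G.v (l ω') i| ≤ 8 * (1 / 2) ^ k ω
  ang : ∀ ω, 0 < p ω → k ω = JJ G.δ ∨ ∃ i, (1 / 2) ^ k ω < |G.v (l ω) i - G.v (l (σ ω)) i|

namespace PSys

variable {m M : ℕ} {G : Geo m M} (S : PSys G)

/-- joint entropy of the pair and the height -/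
noncomputable def eB2 : ℝ :=
  Ent S.p (S.K ⊓ Setoid.ker S.l ⊓ Setoid.ker (fun ω => S.l (S.σ ω)) ⊓ Setoid.ker S.T)

/-- mutual information of the two lines given the point -/
noncomputable def ι : ℝ := 2 * S.eB - S.eP - S.eB2

/-- expected logarithm of `2 ^ (-k) / δ` -/
noncomputable def A : ℝ := Ex S.p (fun ω => gap G.δ (S.k ω))

end PSys

/-- the inequality `a + c A ≤ β h` for pair systems -/
def SDp (m : ℕ) (β c : ℝ) : Prop :=
  ∃ C : ℝ, 0 ≤ C ∧ ∀ (M : ℕ) (G : Geo m M) (S : PSys G),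
    S.a + c * S.A ≤ β * S.h + C * (S.κ + S.ι + ell M)

open scoped Classical in
/-- scale of the angle of two lines -/
noncomputable def sc {m M : ℕ} (G : Geo m M) (l l' : G.L) : ℕ :=
  Nat.findGreatest (fun k => ∀ i, |G.v l i - G.v l' i| ≤ 2 * (1 / 2) ^ k) (JJ G.δ)

/-- coarse cell of a line -/
noncomputable def cc {m M : ℕ} (G : Geo m M) (k : ℕ) (l : G.L) : (Fin m → ℤ) × (Fin m → ℤ) :=
  (cell ((1 / 2) ^ k) (G.x l), cell ((1 / 2) ^ k) (G.v l))

/-- the coarse tube of a pair of lines -/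
noncomputable def tb {m M : ℕ} (G : Geo m M) (l l' : G.L) : Sym2 ((Fin m → ℤ) × (Fin m → ℤ)) :=
  s(cc G (sc G l l') l, cc G (sc G l l') l')

section

variable {m M : ℕ} {G : Geo m M} (S : Sys G)

/-- two lines through a common point -/
noncomputable def pZ : S.Ω × S.Ω → ℝ :=
  glue S.p S.p (fP S.K S.l S.T G.P) (fP S.K S.l S.T G.P)

/-- scale of the pair -/
noncomputable def kZ (z : S.Ω × S.Ω) : ℕ := sc G (S.l z.1) (S.l z.2)

/-- tube of the pair -/
noncomputable def QZ (z : S.Ω × S.Ω) : Sym2 ((Fin m → ℤ) × (Fin m → ℤ)) :=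
  tb G (S.l z.1) (S.l z.2)

/-- entropy of the tube given the scale -/
noncomputable def HQ : ℝ :=
  Ent (pZ S) (Setoid.comap Prod.fst S.K ⊓ Setoid.ker (kZ S) ⊓ Setoid.ker (QZ S))
    - Ent (pZ S) (Setoid.comap Prod.fst S.K ⊓ Setoid.ker (kZ S))

/-- expected logarithm of `2 ^ (-k) / δ` -/
noncomputable def AQ : ℝ := Ex (pZ S) (fun z => gap G.δ (kZ S z))

end

/-- the inequality for arbitrary systems, with the tube of a glued copy -/
def RIH (m : ℕ) (β c : ℝ) : Prop :=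
  ∃ C : ℝ, 0 ≤ C ∧ ∀ (M : ℕ) (G : Geo m M) (S : Sys G),
    S.a + (β - 1) * HQ S + c * AQ S ≤ β * S.h + C * (S.κ + ell M)

end Pool.Agent.Helper6.Kak
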