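import Pool.Agent.Helper57.Kak.Fact2
import Pool.Agent.Helper75.KakHZ
import Pool.Agent.Helper8.Hyb.TopFinal

/-!
# Kakeya sets in all dimensions: a hybrid of the hairbrush and the sums-differences arguments

Let `K` be a set in `ℝ^n` which meets, for each unit vector `ω`, some line with direction `ω` in a
set of Hausdorff dimension `1` (for instance in a unit segment). Then the Hausdorff dimension of `K`
is at least `(n - 1 + 0.345) / 1.6752 + 1`. In the dimensions `n = 6, 8, 10, 11, 12, 13` and in all
dimensions `n ≥ 15` this is larger than the bounds of Wolff, Katz-Tao, Hickman-Rogers-Zhang and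
Zahl.

Outline: an entropy form of the sums-differences method for pairs of lines through a common point,
in which the height of the common point is not fixed: an unknown height is worth `log (1 / δ)`. The
induction keeps an additive gain `c * log (1 / δ)`, `a + c log (1 / δ) ≤ β h`, starting from Wolff's
hairbrush inequality `(β, c) = (2, 1)`, proved by a count in planes. The derived systems of lines
may consist of lines making small angles; a second copy of the line is glued, the scale of the angle
of the two copies is random, and the coarse tube containing both costs only `log log (1 / δ)`.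
-/

namespace Pool.Agent.Results.MP_b1773a_an.HairbrushSumsDifferences

/-- Let `n ≥ 2` and let `K` be a set in `ℝ^n` which meets, for each unit vector `ω`, some line with
direction `ω` in a set of Hausdorff dimension `1`. Then
`dim K ≥ (n - 1 + 0.345) / 1.6752 + 1`. -/
theorem result :
    ∀ n : ℕ, 2 ≤ n → ∀ K : Set (EuclideanSpace ℝ (Fin n)),
      (∀ ω : EuclideanSpace ℝ (Fin n), ‖ω‖ = 1 →
        ∃ x : EuclideanSpace ℝ (Fin n), 1 ≤ dimH {t : ℝ | x + t • ω ∈ K}) →
      ENNReal.ofReal (((n : ℝ) - 1 + 0.345) / 1.6752 + 1) ≤ dimH K := by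
  intro n hn K hK
  have hR : ∀ β c : ℝ, 1 ≤ β → Pool.Agent.Helper6.Kak.SDp (n - 1) β c →
      Pool.Agent.Helper6.Kak.RIH (n - 1) β c :=
    fun β c hβ h => Pool.Agent.Helper81.Kak.RIH_of_SDp hβ h
  have hS : Pool.Agent.Helper75.KakHB.Step (n - 1) :=
    Pool.Agent.Helper6.Kak.step_of_top
      (Pool.Agent.Helper68.Kak.fact1a Pool.Agent.Helper75.KakHB.factJ)
      Pool.Agent.Helper57.Kak.fact2 (Pool.Agent.Helper8.Hyb.top (n - 1)) hR
  have h := Pool.Agent.Helper75.KakHB.dimH_kakeya_of hn hS (hR _ _ (by norm_num)) K hK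
  rwa [add_comm] at h

/-- The case of Kakeya sets. -/
theorem kakeya (n : ℕ) (hn : 2 ≤ n) (K : Set (EuclideanSpace ℝ (Fin n)))
    (hK : ∀ ω : EuclideanSpace ℝ (Fin n), ‖ω‖ = 1 →
      ∃ x : EuclideanSpace ℝ (Fin n), ∀ t : ℝ, 0 ≤ t → t ≤ 1 → x + t • ω ∈ K) :
    ENNReal.ofReal (((n : ℝ) - 1 + 0.345) / 1.6752 + 1) ≤ dimH K := by
  refine result n hn K fun ω hω => ?_
  obtain ⟨x, hx⟩ := hK ω hω
  refine ⟨x, ?_⟩
  have h3 : Set.Icc (0 : ℝ) 1 ⊆ {t : ℝ | x + t • ω ∈ K} := fun t ht => hx t ht.1 ht.2
  have h4 : dimH (Set.Icc (0 : ℝ) 1) = 1 := by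
    have h5 := Real.dimH_of_nonempty_interior (s := Set.Icc (0 : ℝ) 1)
      ⟨1 / 2, by rw [interior_Icc]; norm_num⟩
    rw [h5, Module.finrank_self, Nat.cast_one]
  rw [← h4]
  exact dimH_mono h3

end Pool.Agent.Results.MP_b1773a_an.HairbrushSumsDifferences
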