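import Pool.Agent.Helper6.Kak.HDefs
import Pool.Agent.Helper75.KakHI

/-!
# The step of the hybrid induction, from the inequalities on the top space
-/

set_option autoImplicit false

namespace Pool.Agent.Helper6.Kak

open Pool.Agent.Helper8.Kak Pool.Agent.Helper75.KakHB Hy

/-- the inductive hypothesis with its constant -/
def RIHC (m : ℕ) (β c C : ℝ) : Prop :=
  ∀ (M : ℕ) (G : Geo m M) (S : Sys G),
    S.a + (β - 1) * HQ S + c * AQ S ≤ β * S.h + C * (S.κ + ell M)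

/-- existence of the top space -/
def Top (m : ℕ) : Prop :=
  ∃ N : ℝ, 0 ≤ N ∧ ∀ (M : ℕ) (G : Geo m M) (S : PSys G),
    ∃ (Ω : Type) (_ : Fintype Ω) (p : Ω → ℝ) (V : VH → Setoid Ω) (Lam D Dz : ℝ),
      Hyp p V S.eK S.eL S.eB S.eT S.eP S.eB2 (Real.log M) Lam (N * (S.κ + S.ι + ell M))
        S.A D Dz ∧
      ∀ β c C : ℝ, 1 ≤ β → 0 ≤ C → RIHC m β c C →
        IHw p V (Real.log M) (N * (S.κ + S.ι + ell M)) S.A D β c C ∧
        IHz p V (Real.log M) (N * (S.κ + S.ι + ell M)) S.A Dz β c C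

theorem Hy.Base.lamle {Ω : Type} [Fintype Ω] {p : Ω → ℝ} {V : VH → Setoid Ω}
    {eK eL eB eT eP eB2 LM Lam : ℝ} (h : Base p V eK eL eB eT eP eB2 LM Lam) :
    Lam ≤ 2 * (eP - eT) := by
  have i1 := HH_INC h.hp h.hr {.K, .S} {.K, .S, .PS} {.K, .S, .R} {.K, .S, .R, .PS}
    (by decide +kernel) (by decide +kernel)
  have i2 := HH_INC h.hp h.hr {.K, .R} {.K, .R, .PR} {.K, .S, .R, .PS} {.K, .S, .R, .PS, .PR}
    (by decide +kernel) (by decide +kernel)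
  linarith [h.lam1, h.hPS, h.hPR, h.hTS, h.hTR]

/-- the arithmetic of the step -/
theorem step_arith {a h A D Om Lam β c kk N1 N2 C : ℝ} (h1 : 1 < β) (h2 : β ≤ 2) (h3 : 0 ≤ c)
    (h4 : c ≤ (β - 1) / 2) (hkk : 0 ≤ kk) (hN1 : 0 ≤ N1) (hN2 : 0 ≤ N2) (hC : 0 ≤ C)
    (hD : -kk ≤ D) (hL : Lam ≤ 2 * h)
    (f1 : a + (a - h) + 2 * A + (β - 1) * Om + c * (A - D) ≤ β * (Lam + A) + N1 * (C + 1) * kk)
    (f2 : a + 2 * (a - h) + A + β / 2 * D + (β - 1) * (a - 2 * h + Lam) + c * A ≤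
      β * (h + Om) + N2 * (C + 1) * kk) :
    (β ^ 2 + 3 * β - 2) * a + (3 * β - 1 - β ^ 2 + (2 * β - 1) * c) * A ≤
      (3 * β ^ 2 + 2 * β - 2) * h + (2 * N1 + N2 + 1) * (C + 1) * kk := by
  have g1 := mul_le_mul_of_nonneg_left f1 (by linarith : 0 ≤ β)
  have g2 := mul_le_mul_of_nonneg_left f2 (by linarith : 0 ≤ β - 1)
  have g3 := mul_le_mul_of_nonneg_left hL (by linarith : 0 ≤ 2 * β - 1)
  have g4 : β * ((β - 1) / 2 - c) * (-kk) ≤ β * ((β - 1) / 2 - c) * D :=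
    mul_le_mul_of_nonneg_left hD (mul_nonneg (by linarith) (by linarith))
  have g5 : β * ((β - 1) / 2 - c) ≤ 1 := by nlinarith
  have g6 : β * ((β - 1) / 2 - c) * kk ≤ 1 * kk := mul_le_mul_of_nonneg_right g5 hkk
  have g7 : β * (N1 * (C + 1) * kk) ≤ 2 * (N1 * (C + 1) * kk) :=
    mul_le_mul_of_nonneg_right h2 (by positivity)
  have g8 : (β - 1) * (N2 * (C + 1) * kk) ≤ 1 * (N2 * (C + 1) * kk) :=
    mul_le_mul_of_nonneg_right (by linarith) (by positivity)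
  have g9 : 0 ≤ C * kk := mul_nonneg hC hkk
  nlinarith

/-- **the step** -/
theorem step_of_top {m : ℕ} (hf1 : Fact1a) (hf2 : Fact2) (hT : Top m)
    (hR : ∀ β c : ℝ, 1 ≤ β → SDp m β c → RIH m β c) : Step m := by
  intro β c h1 h2 h3 h4 hS
  obtain ⟨C, hC, ih⟩ := hR β c h1.le hS
  obtain ⟨N1, hN1, F1⟩ := hf1
  obtain ⟨N2, hN2, F2⟩ := hf2
  obtain ⟨N, hN, T⟩ := hT
  have hd : 1 ≤ β ^ 2 + 3 * β - 2 := by nlinarith
  have hd0 : 0 < β ^ 2 + 3 * β - 2 := by linarith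
  refine ⟨(2 * N1 + N2 + 1) * (C + 1) * N, by positivity, fun M G S => ?_⟩
  obtain ⟨Ω, _, p, V, Lam, D, Dz, hH, hI⟩ := T M G S
  obtain ⟨iw, iz⟩ := hI β c C h1.le hC ih
  have k0 := hH.kk0
  have a1 := F1 p V _ _ _ _ _ _ _ _ _ _ _ _ β c C hH iw h1.le h2 h3 (by linarith) hC
  have a2 := F2 p V _ _ _ _ _ _ _ _ _ _ _ _ β c C hH iz h1.le h2 h3 h4 hC
  have key := step_arith (a := S.a) (h := S.h) (A := S.A) (D := D)
    (Om := HH p V {.K, .tw, .w, .kq, .Q} - HH p V {.K, .tw, .kq}) (Lam := Lam) h1 h2 h3 h4 k0 hN1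
    hN2 hC hH.D0 hH.toBase.lamle a1 a2
  set A' := 3 * β - 1 - β ^ 2 + (2 * β - 1) * c
  set X := S.κ + S.ι + ell M
  have e1 : S.a + A' / (β ^ 2 + 3 * β - 2) * S.A
      = ((β ^ 2 + 3 * β - 2) * S.a + A' * S.A) / (β ^ 2 + 3 * β - 2) := by
    rw [eq_div_iff hd0.ne', add_mul, mul_right_comm, div_mul_cancel₀ _ hd0.ne']
    ring
  have e2 : (3 * β ^ 2 + 2 * β - 2) / (β ^ 2 + 3 * β - 2) * S.h
      + (2 * N1 + N2 + 1) * (C + 1) * N * X
      = ((3 * β ^ 2 + 2 * β - 2) * S.h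
        + (β ^ 2 + 3 * β - 2) * ((2 * N1 + N2 + 1) * (C + 1) * N * X)) / (β ^ 2 + 3 * β - 2) := by
    rw [add_div, mul_div_cancel_left₀ _ hd0.ne']
    ring
  rw [e1, e2]
  apply div_le_div_of_nonneg_right _ hd0.le
  refine key.trans ?_
  have e3 : (2 * N1 + N2 + 1) * (C + 1) * (N * X) = (2 * N1 + N2 + 1) * (C + 1) * N * X := by ring
  rw [e3]
  have e4 : 0 ≤ (2 * N1 + N2 + 1) * (C + 1) * N * X := by
    rw [← e3]
    positivity
  have e5 := mul_le_mul_of_nonneg_right hd e4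
  linarith

end Pool.Agent.Helper6.Kak
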